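import Pool.Agent.Q70.AdN

set_option autoImplicit false

/-!
# Adapted metrics for sectionally volume-expanding partially hyperbolic sets

Every compact invariant set `Λ` of a `C¹` diffeomorphism with a partially hyperbolic splitting
`E ⊕ F`, `E` uniformly contracted and all `k`-subspaces of `F` volume-expanding, has an adapted
metric: a `C^∞` Riemannian metric for which the `k`-volume expansion holds with constant `1`.
The same metric is adapted to the contraction of `E` and to the domination.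
-/

open Module Set Filter Topology Bundle Manifold
open scoped ContDiff

namespace Pool.Agent.Results.MP_3d2465_an.AdaptedMetric

variable {V : Type} [NormedAddCommGroup V] [NormedSpace ℝ V] {M : Type} [TopologicalSpace M]
  [ChartedSpace V M] [IsManifold 𝓘(ℝ, V) ∞ M]

/-- The tangent spaces of `M`. -/
abbrev T (V : Type) [NormedAddCommGroup V] [NormedSpace ℝ V] {M : Type} [TopologicalSpace M]
    [ChartedSpace V M] (x : M) := TangentSpace 𝓘(ℝ, V) x

/-- `C^∞` Riemannian metrics on `M`. -/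
abbrev Metric (V : Type) [NormedAddCommGroup V] [NormedSpace ℝ V] (M : Type)
    [TopologicalSpace M] [ChartedSpace V M] [IsManifold 𝓘(ℝ, V) ∞ M] :=
  ContMDiffRiemannianMetric 𝓘(ℝ, V) ∞ (V) (fun x : M => T V x)

/-- The norm of a tangent vector. -/
noncomputable def nrm (g : Metric V M) (x : M) (v : T V x) : ℝ := √(g.inner x v v)

/-- The norm of `v₁ ∧ ... ∧ v_k` induced by the metric: the square root of the Gram
determinant. -/
noncomputable def wnorm (g : Metric V M) (x : M) {k : ℕ} (v : Fin k → T V x) : ℝ :=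
  √(Matrix.det (Matrix.of fun i j => g.inner x (v i) (v j)))

/-- The derivative of the `n`-th iterate. -/
noncomputable abbrev D (f : M → M) (n : ℕ) (x : M) : T V x →L[ℝ] T V (f^[n] x) :=
  mfderiv 𝓘(ℝ, V) 𝓘(ℝ, V) (f^[n]) x

/-- A continuous `Df`-invariant splitting `E ⊕ F` of `TM` over `Λ`, with constant dimensions.
Continuity means that the projection onto `E` along `F` is a continuous section over `Λ` of the
bundle of endomorphisms of `TM`. -/
structure InvariantSplitting (f : M → M) (Λ : Set M) (E F : ∀ x : M, Submodule ℝ (T V x)) :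
    Prop where
  compl : ∀ x ∈ Λ, IsCompl (E x) (F x)
  continuous : ∃ P : ∀ x : M, T V x →L[ℝ] T V x,
    (∀ x ∈ Λ, (∀ v ∈ E x, P x v = v) ∧ ∀ v ∈ F x, P x v = 0) ∧
    ContinuousOn (fun x => TotalSpace.mk'
      (V →L[ℝ] V)
      (E := fun x : M => T V x →L[ℝ] T V x) x (P x)) Λ
  dims : ∃ e e' : ℕ, ∀ x ∈ Λ, finrank ℝ (E x) = e ∧ finrank ℝ (F x) = e'
  invariant : ∀ x ∈ Λ, (E x).map (mfderiv 𝓘(ℝ, V) 𝓘(ℝ, V) f x).toLinearMap = E (f x) ∧
    (F x).map (mfderiv 𝓘(ℝ, V) 𝓘(ℝ, V) f x).toLinearMap = F (f x)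

/-- Domination: `‖Df^n|E_x‖ ≤ K μ^n m(Df^n|F_x)`, where `m(Df^n|F_x)` is the smallest expansion
of `Df^n` on `F_x`, that is the inverse of `‖Df^{-n}|F_{f^n x}‖`. -/
def Dominated (g : Metric V M) (f : M → M) (Λ : Set M) (E F : ∀ x : M, Submodule ℝ (T V x))
    (K μ : ℝ) : Prop :=
  ∀ x ∈ Λ, ∀ n : ℕ, ∀ u ∈ E x, ∀ v ∈ F x,
    nrm g (f^[n] x) (D f n x u) * nrm g x v ≤
      K * μ ^ n * (nrm g x u * nrm g (f^[n] x) (D f n x v))

/-- `‖Df^n|E_x‖ ≤ K μ^n`. -/
def Contracted (g : Metric V M) (f : M → M) (Λ : Set M) (E : ∀ x : M, Submodule ℝ (T V x))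
    (K μ : ℝ) : Prop :=
  ∀ x ∈ Λ, ∀ n : ℕ, ∀ u ∈ E x, nrm g (f^[n] x) (D f n x u) ≤ K * μ ^ n * nrm g x u

/-- All `k`-frames of `F` satisfy `‖∧^k Df^n (v₁ ∧ ... ∧ v_k)‖ ≥ C e^{λ n} ‖v₁ ∧ ... ∧ v_k‖`. -/
def VolumeExpanding (g : Metric V M) (f : M → M) (Λ : Set M) (F : ∀ x : M, Submodule ℝ (T V x))
    (k : ℕ) (C l : ℝ) : Prop :=
  ∀ x ∈ Λ, ∀ n : ℕ, 1 ≤ n → ∀ v : Fin k → T V x, (∀ i, v i ∈ F x) →
    C * Real.exp (l * n) * wnorm g x v ≤ wnorm g (f^[n] x) (fun i => D f n x (v i))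

omit [IsManifold 𝓘(ℝ, V) ∞ M] in
lemma contMDiff_iterate {f : M → M} (hf : ContMDiff 𝓘(ℝ, V) 𝓘(ℝ, V) 1 f) (n : ℕ) :
    ContMDiff 𝓘(ℝ, V) 𝓘(ℝ, V) 1 (f^[n]) := by
  induction n with
  | zero => exact contMDiff_id
  | succ n ih => rw [Function.iterate_succ]; exact ih.comp hf

omit [IsManifold 𝓘(ℝ, V) ∞ M] in
lemma D_add {f : M → M} (hf : ContMDiff 𝓘(ℝ, V) 𝓘(ℝ, V) 1 f) (s t : ℕ) (x : M) :
    (D f (s + t) x : V →L[ℝ] V) =
      (D f s (f^[t] x) : V →L[ℝ] V) ∘L
        (D f t x : V →L[ℝ] V) := by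
  have h := mfderiv_comp x (((contMDiff_iterate hf s).mdifferentiable one_ne_zero) (f^[t] x))
    (((contMDiff_iterate hf t).mdifferentiable one_ne_zero) x)
  rw [← Function.iterate_add] at h
  exact h

/-- The cocycle. -/
lemma act {f : M ≃ₘ^1⟮𝓘(ℝ, V), 𝓘(ℝ, V)⟯ M} {Λ : Set M} (hf : f '' Λ = Λ)
    {E F : ∀ x : M, Submodule ℝ (T V x)} (hsplit : InvariantSplitting f Λ E F) :
    Q70.Ad.Act (Q70.Ad.tframes V M) Λ E F (fun n : ℕ => f^[n])
      (fun n x => D f n x) := by
  have hC : ContMDiff 𝓘(ℝ, V) 𝓘(ℝ, V) 1 f := f.contMDiff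
  have h1 : ∀ x ∈ Λ, f x ∈ Λ := fun x hx => hf ▸ mem_image_of_mem f hx
  have hmaps : ∀ n : ℕ, ∀ x ∈ Λ, f^[n] x ∈ Λ := by
    intro n
    induction n with
    | zero => exact fun x hx => hx
    | succ n ih => intro x hx; rw [Function.iterate_succ_apply]; exact ih _ (h1 x hx)
  have hone : ∀ x, (D f 1 x : V →L[ℝ] V) =
      (mfderiv 𝓘(ℝ, V) 𝓘(ℝ, V) f x : V →L[ℝ] V) :=
    fun x => rfl
  have hbij1 : ∀ x, Function.Bijective
      (mfderiv 𝓘(ℝ, V) 𝓘(ℝ, V) f x : V →L[ℝ] V) := by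
    intro x
    have := (f.mfderivToContinuousLinearEquiv one_ne_zero x).bijective
    exact this
  refine
    { compl := hsplit.compl
      zero := fun x _ => rfl
      Azero := fun x _ => ?_
      add := fun s t x _ => Function.iterate_add_apply f s t x
      Aadd := fun s t x _ => D_add hC s t x
      maps := hmaps
      bij := fun n => ?_
      mapE := fun n => ?_
      mapF := fun n => ?_
      tend := fun n x₀ _ => ((contMDiff_iterate hC n).continuous.tendsto x₀).mono_left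
        nhdsWithin_le_nhds
      Atend := fun n x₀ _ => (Q70.Ad.tendsto_mfderiv (contMDiff_iterate hC n) x₀).mono_left
        nhdsWithin_le_nhds }
  · exact mfderiv_id
  · induction n with
    | zero =>
      intro x hx
      have : (D f 0 x : V →L[ℝ] V) =
        ContinuousLinearMap.id ℝ _ := mfderiv_id
      rw [this]
      exact Function.bijective_id
    | succ n ih =>
      intro x hx
      rw [D_add hC n 1 x]
      exact (ih _ (h1 x hx)).comp (hbij1 x)
  · induction n with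
    | zero =>
      intro x hx u hu
      have : (D f 0 x : V →L[ℝ] V) =
        ContinuousLinearMap.id ℝ _ := mfderiv_id
      rw [this]
      exact hu
    | succ n ih =>
      intro x hx u hu
      rw [D_add hC n 1 x]
      refine ih _ (h1 x hx) _ ?_
      have := (hsplit.invariant x hx).1
      change mfderiv 𝓘(ℝ, V) 𝓘(ℝ, V) f x u ∈ E (f x)
      rw [← this]
      exact Submodule.mem_map_of_mem hu
  · induction n with
    | zero =>
      intro x hx u hu
      have : (D f 0 x : V →L[ℝ] V) =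
        ContinuousLinearMap.id ℝ _ := mfderiv_id
      rw [this]
      exact hu
    | succ n ih =>
      intro x hx u hu
      rw [D_add hC n 1 x]
      refine ih _ (h1 x hx) _ ?_
      have := (hsplit.invariant x hx).2
      change mfderiv 𝓘(ℝ, V) 𝓘(ℝ, V) f x u ∈ F (f x)
      rw [← this]
      exact Submodule.mem_map_of_mem hu

/-- **Adapted metrics exist.** Let `M` be a smooth manifold, `f` a `C¹` diffeomorphism of `M`, `Λ` a
compact `f`-invariant set with a continuous invariant splitting `E ⊕ F` which is dominated, `E`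
uniformly contracted, and all `k`-subspaces of `F` volume-expanding, with constants `K`, `μ`, `C`,
`l` with respect to some Riemannian metric `g₀`. Then there is a `C^∞` Riemannian metric `g` on `M`
for which the volume expansion holds with constant `1`; for the same metric, the contraction of `E`
and the domination also hold with constant `1`. -/
theorem result [FiniteDimensional ℝ V] [T2Space M] [SigmaCompactSpace M] (f : M ≃ₘ^1⟮𝓘(ℝ, V), 𝓘(ℝ, V)⟯ M) (Λ : Set M)
    (hΛ : IsCompact Λ) (hf : f '' Λ = Λ) (E F : ∀ x : M, Submodule ℝ (T V x))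
    (hsplit : InvariantSplitting f Λ E F) (k : ℕ) (g₀ : Metric V M)
    (hdom : ∃ K μ : ℝ, 0 < K ∧ 0 < μ ∧ μ < 1 ∧ Dominated g₀ f Λ E F K μ ∧
      Contracted g₀ f Λ E K μ)
    (hvol : ∃ C l : ℝ, 0 < C ∧ 0 < l ∧ VolumeExpanding g₀ f Λ F k C l) :
    ∃ g : Metric V M, ∃ l : ℝ, 0 < l ∧ VolumeExpanding g f Λ F k 1 l ∧
      Contracted g f Λ E 1 (Real.exp (-l)) ∧ Dominated g f Λ E F 1 (Real.exp (-l)) := by
  obtain ⟨P, hP1, hP2⟩ := hsplit.continuous
  obtain ⟨K, μ, hK, hμ0, hμ1, hD, hCo⟩ := hdom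
  obtain ⟨C, l, hC, hl, hV⟩ := hvol
  have hact := act hf hsplit
  have hpd : ∀ (g : Metric V M) (x : M), Q70.Ad.PD (Q70.Ad.toBil (Q70.Ad.asE (g.inner x))) :=
    fun g x => ⟨fun u v => g.symm x u v, fun u hu => g.pos x u hu⟩
  have hn2 : ∀ (g : Metric V M) (x : M) (v : T V x), nrm g x v ^ 2 = g.inner x v v := fun g x v =>
    Real.sq_sqrt ((hpd g x).nonneg v)
  have hn0 : ∀ (g : Metric V M) (x : M) (v : T V x), 0 ≤ nrm g x v := fun g x v =>
    Real.sqrt_nonneg _
  have hw2 : ∀ (g : Metric V M) (x : M) (v : Fin k → T V x), wnorm g x v ^ 2 =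
      Q70.Ad.gram (Q70.Ad.toBil (Q70.Ad.asE (g.inner x))) v := fun g x v =>
    Real.sq_sqrt (Q70.Ad.gram_nonneg (hpd g x) v)
  have hw0 : ∀ (g : Metric V M) (x : M) (v : Fin k → T V x), 0 ≤ wnorm g x v := fun g x v =>
    Real.sqrt_nonneg _
  set G := Q70.Ad.G0 (E := V) (fun x : M => g₀.inner x) P with hG
  have hPE : ∀ x ∈ Λ, ∀ u ∈ E x, Q70.Ad.asEnd (P x) u = u := fun x hx u hu => (hP1 x hx).1 u hu
  have hPF : ∀ x ∈ Λ, ∀ u ∈ F x, Q70.Ad.asEnd (P x) u = 0 := fun x hx u hu => (hP1 x hx).2 u hu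
  have hmet : Q70.Ad.Met (Q70.Ad.tframes V M) Λ E F G :=
    Q70.Ad.G0_met (g₀.contMDiff.continuous.continuousOn) hP2 (hpd g₀) hPE hPF
  have hGE : ∀ x ∈ Λ, ∀ u ∈ E x, G x u u = nrm g₀ x u ^ 2 := fun x hx u hu => by
    rw [hn2]; exact Q70.Ad.G0_E (hPE x hx u hu) (hPE x hx u hu)
  have hGF : ∀ x ∈ Λ, ∀ u ∈ F x, G x u u = nrm g₀ x u ^ 2 := fun x hx u hu => by
    rw [hn2]; exact Q70.Ad.G0_F (hPF x hx u hu) (hPF x hx u hu)
  have hGg : ∀ x ∈ Λ, ∀ v : Fin k → T V x, (∀ i, v i ∈ F x) →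
      Q70.Ad.gram (G x) v = wnorm g₀ x v ^ 2 := fun x hx v hv => by
    rw [hw2]
    unfold Q70.Ad.gram
    congr 1
    ext i j
    exact Q70.Ad.G0_F (hPF x hx _ (hv i)) (hPF x hx _ (hv j))
  have hC' : 0 < min C 1 := lt_min hC one_pos
  obtain ⟨g, κ, hκ, hres⟩ := Q70.Ad.discrete_adapt hΛ.isClosed hact (k := k) hmet hC' hK hl hμ0 hμ1
    (fun n x hx v hv => by
      have e1 := hGg x hx v hv
      have e2 := hGg _ (hact.maps n x hx) (fun i => D f n x (v i))
        (fun i => hact.mapF n x hx _ (hv i))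
      rw [e1]
      refine le_trans ?_ (le_of_eq e2.symm)
      rw [← mul_pow]
      refine pow_le_pow_left₀ (mul_nonneg (by positivity) (hw0 _ _ _)) ?_ 2
      rcases Nat.eq_zero_or_pos n with h0 | h0
      · subst h0
        have e3 : wnorm g₀ (f^[0] x) (fun i => D f 0 x (v i)) = wnorm g₀ x v := by
          have : (D f 0 x : V →L[ℝ] V) =
            ContinuousLinearMap.id ℝ _ := mfderiv_id
          unfold wnorm
          congr 2
          ext i j
          change g₀.inner x (D f 0 x (v i)) (D f 0 x (v j)) = g₀.inner x (v i) (v j)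
          rw [this]
          rfl
        rw [e3]
        have : min C 1 ≤ 1 := min_le_right _ _
        simp only [Nat.cast_zero, mul_zero, Real.exp_zero, mul_one]
        exact mul_le_of_le_one_left (hw0 _ _ _) this
      · refine le_trans ?_ (hV x hx n h0 v hv)
        have : min C 1 ≤ C := min_le_left _ _
        exact mul_le_mul_of_nonneg_right (mul_le_mul_of_nonneg_right this (Real.exp_pos _).le)
          (hw0 _ _ _))
    (fun n x hx u hu => by
      have e1 := hGE x hx u hu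
      have e2 := hGE _ (hact.maps n x hx) (D f n x u) (hact.mapE n x hx _ hu)
      rw [e1]
      refine le_trans (le_of_eq e2) ?_
      rw [← mul_pow]
      exact pow_le_pow_left₀ (hn0 _ _ _) (hCo x hx n u hu) 2)
    (fun n x hx u hu v hv => by
      have e1 := hGE x hx u hu
      have e2 := hGE _ (hact.maps n x hx) (D f n x u) (hact.mapE n x hx _ hu)
      have e3 := hGF x hx v hv
      have e4 := hGF _ (hact.maps n x hx) (D f n x v) (hact.mapF n x hx _ hv)
      change G (f^[n] x) (D f n x u) (D f n x u) * G x v v ≤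
        (K * μ ^ n) ^ 2 * (G x u u * G (f^[n] x) (D f n x v) (D f n x v))
      rw [e1, e2, e3, e4, ← mul_pow, ← mul_pow, ← mul_pow]
      exact pow_le_pow_left₀ (mul_nonneg (hn0 _ _ _) (hn0 _ _ _)) (hD x hx n u hu v hv) 2)
  have hexp : ∀ n : ℕ, Real.exp (-κ) ^ n = Real.exp (-(κ * n)) := fun n => by
    rw [← Real.exp_nat_mul]; congr 1; ring
  refine ⟨g, κ, hκ, fun x hx n _ v hv => ?_, fun x hx n u hu => ?_, fun x hx n u hu v hv => ?_⟩
  · have h := (hres n).1 x hx v hv
    rw [one_mul]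
    refine le_of_sq_le_sq ?_ (hw0 _ _ _)
    rw [mul_pow, hw2, hw2]
    exact h
  · have h := (hres n).2.1 x hx u hu
    rw [one_mul, hexp]
    refine le_of_sq_le_sq ?_ (mul_nonneg (Real.exp_pos _).le (hn0 _ _ _))
    rw [mul_pow, hn2, hn2]
    exact h
  · have h := (hres n).2.2 x hx u hu v hv
    rw [one_mul, hexp]
    refine le_of_sq_le_sq ?_ (mul_nonneg (Real.exp_pos _).le
      (mul_nonneg (hn0 _ _ _) (hn0 _ _ _)))
    rw [mul_pow, mul_pow, mul_pow, hn2, hn2, hn2, hn2]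
    exact h

end Pool.Agent.Results.MP_3d2465_an.AdaptedMetric
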